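import Mathlib
import Pool.Agent.X191.CP.Cur
import Pool.Agent.X144.Pell

set_option autoImplicit false

/-!
# Both coordinates prime: `P ^ 2 - D R ^ 2 = -N` for fixed `N` and almost every `D`

For real `D > 1`, `N > 0` and odd `n` let `P D N n`, `R D N n` be the coordinates of
`√N (√(D - 1) + √D) ^ n`, the solutions of `P ^ 2 - D R ^ 2 = -N` in the orbit of
`√N (√(D - 1), 1)` under the powers of `(√(D - 1) + √D) ^ 2`.  At `(D, N) = (2, 1)` these are the
positive solutions of `p ^ 2 - 2 r ^ 2 = -1`.  We call a prime `n` a hit of a real sequence `s` if the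
`n`-rough part (the product, with multiplicity, of the prime factors larger than `n`) of `⌊s n⌋` is
prime.  At `(2, 1)` this means for `n = 2 k + 1` that `p_k`, or `r_k`, is prime, so that Q2 asks
whether there are infinitely many primes that are hits of both `P 2 1` and `R 2 1`.

We prove for EVERY fixed `N > 0` (in particular for `N = 1`) and almost every `D > 1`: only finitely
many primes are hits of both `P D N` and `R D N`; for every `ε > 0` there are only finitely many pairs
of primes `m < n ≤ m + m / (log m) ^ (1 + ε)` such that `m` is a hit of `P D N` or `R D N` and `n` is a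
hit of `P D N` or `R D N`; and the same holds for the pairs of primes in any set with a finite sum of
`(log m / m) (log n / n)`.  (The result `RealPellLaw` for this problem has the first statement for
almost every pair `(D, N)` only, that is with an additional average over `N`.)

The bounds for the measure of the joint events are in the starting library
(`Pool.Agent.W66C.near_c`, `Pool.Agent.H447R2.ML.pair_bound`).
-/

namespace Pool.Agent.Results.MP_927e73_nt.BothPrimeFixedN

open Filter Topology MeasureTheory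

/-- The first coordinate of `√N (√(D - 1) + √D) ^ n`, `n` odd. -/
noncomputable def P (D N : ℝ) (n : ℕ) : ℝ :=
  Real.sqrt N * (((Real.sqrt (D - 1) + Real.sqrt D) ^ n + (Real.sqrt (D - 1) - Real.sqrt D) ^ n) / 2)

/-- The second coordinate of `√N (√(D - 1) + √D) ^ n`, `n` odd. -/
noncomputable def R (D N : ℝ) (n : ℕ) : ℝ :=
  Real.sqrt N * (((Real.sqrt (D - 1) + Real.sqrt D) ^ n - (Real.sqrt (D - 1) - Real.sqrt D) ^ n) /
    (2 * Real.sqrt D))

/-- The product, with multiplicity, of the prime factors of `m` that are larger than `p`. -/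
def roughPart (p m : ℕ) : ℕ := (m.primeFactorsList.filter (fun r => p < r)).prod

/-- `n` is prime and the `n`-rough part of the integer part of `s n` is prime. -/
def Hit (s : ℕ → ℝ) (n : ℕ) : Prop := n.Prime ∧ (roughPart n ⌊s n⌋₊).Prime

open Pool.Agent.X191.CP
open Pool.Agent.W66C (Cur yy yy1 yy2 fam_cur measurable_yy hyp_odd)

/-- `P` for `true` and `R` for `false`. -/
noncomputable def T (i : Bool) (D N : ℝ) : ℕ → ℝ := if i then P D N else R D N

noncomputable def sg (i : Bool) : ℝ := if i then -1 else 1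

noncomputable def H (N : ℝ) (i : Bool) : ℝ → ℝ := if i then fun _ => Real.log (Real.sqrt N / 2) else
  fun t => Real.log (Real.sqrt N) - Real.log (2 * Real.cosh t)

noncomputable def H1 (i : Bool) : ℝ → ℝ := if i then fun _ => 0 else fun t => -(2 * Real.sinh t / (2 * Real.cosh t))

noncomputable def H2 (i : Bool) : ℝ → ℝ := if i then fun _ => 0 else
  fun t => -((2 * Real.cosh t * (2 * Real.cosh t) - 2 * Real.sinh t * (2 * Real.sinh t)) /
      (2 * Real.cosh t) ^ 2)

lemma sg_le (i : Bool) : |sg i| ≤ 1 := by cases i <;> simp [sg]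

lemma H_meas (N : ℝ) (i : Bool) : Measurable (H N i) := by
  cases i
  · simp only [H, Bool.false_eq_true, if_false]; fun_prop
  · simp only [H, if_true]; exact measurable_const

lemma fam (N : ℝ) (i : Bool) : ∀ a0 a1 : ℝ, (0 : ℝ) < a0 → a0 < a1 → ∃ D : ℝ, 0 ≤ D ∧
      ∀ᶠ p : ℕ in atTop, Cur a0 a1 D (H1 i) p (yy 2 0 (sg i) (H N i) p) (yy1 2 0 (sg i) (H1 i) p)
        (yy2 2 0 (sg i) (H2 i) p) := by
  have hne : ∀ t : ℝ, 2 * Real.cosh t ≠ 0 := fun t => by have := Real.cosh_pos t; positivity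
  refine fam_cur two_pos (sg_le i) (by norm_num) ?_ ?_ ?_
  · cases i
    · simp only [H, H1, Bool.false_eq_true, if_false]
      exact fun t _ => (((Real.hasDerivAt_cosh t).const_mul 2).log (hne t)).const_sub _
    · simp only [H, H1, if_true]
      exact fun t _ => hasDerivAt_const _ _
  · cases i
    · simp only [H2, H1, Bool.false_eq_true, if_false]
      exact fun t _ => (((Real.hasDerivAt_sinh t).const_mul 2).div
        ((Real.hasDerivAt_cosh t).const_mul 2) (hne t)).neg
    · simp only [H2, H1, if_true]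
      exact fun t _ => hasDerivAt_const _ _
  · cases i
    · simp only [H2, Bool.false_eq_true, if_false]
      exact ContinuousOn.neg (ContinuousOn.div (by fun_prop) (by fun_prop)
        fun t _ => pow_ne_zero 2 (hne t))
    · simp only [H2, if_true]
      exact continuousOn_const

lemma sqrt_D (t : ℝ) : Real.sqrt (Real.cosh t ^ 2) = Real.cosh t :=
  Real.sqrt_sq (Real.cosh_pos t).le

lemma sqrt_D1 {t : ℝ} (ht : 0 < t) : Real.sqrt (Real.cosh t ^ 2 - 1) = Real.sinh t := by
  have : Real.cosh t ^ 2 - 1 = Real.sinh t ^ 2 := by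
    have := Real.cosh_sq t
    linarith
  rw [this, Real.sqrt_sq (Real.sinh_pos_iff.2 ht).le]

lemma value {N : ℝ} (hN : 0 < N) (i : Bool) : ∀ t, (0 : ℝ) < t → ∀ᶠ p : ℕ in atTop, p.Prime →
    0 < T i (Real.cosh t ^ 2) N p ∧
      Real.log (T i (Real.cosh t ^ 2) N p) = yy 2 0 (sg i) (H N i) p t := by
  intro t ht
  filter_upwards [eventually_ge_atTop 3] with p hp hpp
  have hodd : Odd p := hpp.odd_of_ne_two (by omega)
  have hp0 : (0 : ℝ) < p := by positivity
  have hsN : 0 < Real.sqrt N := Real.sqrt_pos.2 hN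
  have a1 : Real.sqrt (Real.cosh t ^ 2 - 1) + Real.sqrt (Real.cosh t ^ 2) = Real.exp t := by
    rw [sqrt_D, sqrt_D1 ht, Real.sinh_eq, Real.cosh_eq]; ring
  have a2 : Real.sqrt (Real.cosh t ^ 2 - 1) - Real.sqrt (Real.cosh t ^ 2) = -Real.exp (-t) := by
    rw [sqrt_D, sqrt_D1 ht, Real.sinh_eq, Real.cosh_eq]; ring
  unfold yy
  cases i
  · simp only [T, H, sg, Bool.false_eq_true, if_false]
    unfold R
    rw [a1, a2, sqrt_D, hyp_odd t hodd, sub_neg_eq_add, ← Real.exp_nat_mul]
    have hc : 0 < 2 * Real.cosh t := by have := Real.cosh_pos t; positivity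
    have h2 : 0 < Real.exp (p * t) + Real.exp (-(p * t)) := by positivity
    have e2 : Real.exp (p * t) + Real.exp (-(p * t)) =
        Real.exp (p * t) * (1 + 1 * Real.exp (-(p * (2 * t - 0)))) := by
      rw [one_mul, mul_add, mul_one, ← Real.exp_add]
      congr 2
      ring
    refine ⟨by positivity, ?_⟩
    rw [Real.log_mul hsN.ne' (div_pos h2 hc).ne', Real.log_div h2.ne' hc.ne', e2,
      Real.log_mul (Real.exp_pos _).ne' (by positivity), Real.log_exp]
    ring
  · simp only [T, H, sg, if_true]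
    unfold P
    rw [a1, a2, hyp_odd t hodd, ← Real.exp_nat_mul, ← sub_eq_add_neg]
    have h2 : Real.exp (-(p * (2 * t - 0))) < 1 := by
      rw [Real.exp_lt_one_iff]
      have : 0 < p * (2 * t - 0) := by
        rw [sub_zero]; positivity
      linarith
    have e2 : Real.exp (p * t) - Real.exp (-(p * t)) =
        Real.exp (p * t) * (1 + -1 * Real.exp (-(p * (2 * t - 0)))) := by
      rw [neg_one_mul, mul_add, mul_one, mul_neg, ← Real.exp_add, ← sub_eq_add_neg]
      congr 2
      ring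
    have h3 : 0 < Real.exp (p * t) * (1 + -1 * Real.exp (-(p * (2 * t - 0)))) :=
      mul_pos (Real.exp_pos _) (by linarith)
    rw [e2]
    refine ⟨mul_pos hsN (by linarith), ?_⟩
    have e3 : Real.sqrt N * (Real.exp (p * t) * (1 + -1 * Real.exp (-(p * (2 * t - 0)))) / 2) =
        Real.sqrt N / 2 * (Real.exp (p * t) * (1 + -1 * Real.exp (-(p * (2 * t - 0))))) := by ring
    rw [e3, Real.log_mul (by positivity) h3.ne', Real.log_mul (Real.exp_pos _).ne' (by linarith),
      Real.log_exp]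
    ring

/-- transfer to the parameter `D = cosh ^ 2 t` -/
lemma ae_of_cosh {Q : ℝ → Prop} (h : ∀ᵐ t : ℝ, 0 < t → Q (Real.cosh t ^ 2)) :
    ∀ᵐ D : ℝ, 1 < D → Q D := by
  rw [ae_iff] at h ⊢
  have h1 : volume ((fun t : ℝ => Real.cosh t ^ 2) '' {t : ℝ | ¬ (0 < t → Q (Real.cosh t ^ 2))}) = 0 :=
    addHaar_image_eq_zero_of_differentiableOn_of_addHaar_eq_zero volume
      (Real.differentiable_cosh.pow 2).differentiableOn h
  refine measure_mono_null ?_ h1
  intro x hx
  simp only [Set.mem_ofPred_eq, Classical.not_imp] at hx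
  obtain ⟨t, ht⟩ := Real.sinh_surjective (Real.sqrt (x - 1))
  have ht0 : 0 < t := by
    rw [← Real.sinh_pos_iff, ht]
    exact Real.sqrt_pos.2 (by linarith)
  have e : Real.cosh t ^ 2 = x := by
    rw [Real.cosh_sq, ht, Real.sq_sqrt (by linarith)]
    ring
  refine ⟨t, ?_, e⟩
  simp only [Set.mem_ofPred_eq, Classical.not_imp]
  rw [e]
  exact ⟨ht0, hx.2⟩

lemma tanh_bd {t : ℝ} (ht : 0 < t) :
    0 < 2 * Real.sinh t / (2 * Real.cosh t) ∧ 2 * Real.sinh t / (2 * Real.cosh t) ≤ 1 := by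
  have h1 := Real.sinh_pos_iff.2 ht
  have h2 := Real.cosh_pos t
  refine ⟨by positivity, ?_⟩
  rw [div_le_one (by positivity)]
  linarith [Real.sinh_lt_cosh t]

lemma H1_bd (i : Bool) {t : ℝ} (ht : 0 < t) : -1 ≤ H1 i t ∧ H1 i t ≤ 0 := by
  have := tanh_bd ht
  cases i
  · simp only [H1, Bool.false_eq_true, if_false]
    constructor <;> linarith
  · simp only [H1, if_true]
    constructor <;> linarith

/-- different levels -/
lemma core {N : ℝ} (hN : 0 < N) (i j : Bool) (S : Set (ℕ × ℕ))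
    (hS : Summable (fun x : ℕ × ℕ => {x | x ∈ S ∧ x.1.Prime ∧ x.2.Prime ∧ x.1 < x.2}.indicator
      (fun x : ℕ × ℕ => Real.log x.1 / x.1 * (Real.log x.2 / x.2)) x)) :
    ∀ᵐ D : ℝ, 1 < D → ∀ᶠ p : ℕ in atTop, ∀ q : ℕ, (p, q) ∈ S → p < q →
      ¬ (Hit (T i D N) p ∧ Hit (T j D N) q) := by
  classical
  refine ae_of_cosh ?_
  set S' : Set (ℕ × ℕ) := {x | x ∈ S ∧ x.1.Prime ∧ x.2.Prime ∧ x.1 < x.2 ∧ 3 ≤ x.1} with hS'
  have h := pairs_val (c0 := 0) le_rfl (fun p => measurable_yy 2 0 (sg i) (H_meas N i) p)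
    (fun p => measurable_yy 2 0 (sg j) (H_meas N j) p) (fam N i) (fam N j) (S := S')
    (fun x hx => ⟨hx.2.1, hx.2.2.1, hx.2.2.2.1.le⟩)
    (by
      intro a0 a1 ha0 _
      refine ⟨1 / 2, by norm_num, by norm_num, ?_⟩
      have e1 := yy1_close (m1 := 2) (m0 := 0) (c0 := 0) (H' := H1 i) two_pos (sg_le i) (by norm_num)
        (show (0 : ℝ) < 1 / 8 by norm_num) a0 a1 ha0
      have e2 := yy1_close (m1 := 2) (m0 := 0) (c0 := 0) (H' := H1 j) two_pos (sg_le j) (by norm_num)
        (show (0 : ℝ) < 1 / 8 by norm_num) a0 a1 ha0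
      obtain ⟨P1, h1⟩ := eventually_atTop.1 e1
      obtain ⟨P2, h2⟩ := eventually_atTop.1 e2
      filter_upwards [eventually_ge_atTop (P1 + P2)] with p hp q hpq t ht
      obtain ⟨_, hpp, hqp, hlt, h3⟩ := hpq
      simp only at hpp hqp hlt h3
      have g1 := abs_le.1 (h1 p (by omega) t ht)
      have g2 := abs_le.1 (h2 q (by omega) t ht)
      have g3 := H1_bd i (ha0.trans_le ht.1)
      have g4 := H1_bd j (ha0.trans_le ht.1)
      have g5 : (p : ℝ) + 2 ≤ q := by
        have o1 : Odd p := hpp.odd_of_ne_two (by omega)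
        have o2 : Odd q := hqp.odd_of_ne_two (by omega)
        obtain ⟨a, ha⟩ := o1
        obtain ⟨b, hb⟩ := o2
        exact_mod_cast (by omega : p + 2 ≤ q)
      linarith [g1.1, g1.2, g2.1, g2.2, g3.1, g3.2, g4.1, g4.2])
    (by
      refine Summable.of_nonneg_of_le (fun x => ?_) (fun x => ?_) hS
      · exact Set.indicator_nonneg (fun x _ => mul_nonneg (w_nonneg _) (w_nonneg _)) x
      · refine Set.indicator_le_indicator_of_subset ?_ (fun x => mul_nonneg (w_nonneg _) (w_nonneg _)) x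
        intro x hx
        exact ⟨hx.1, hx.2.1, hx.2.2.1, hx.2.2.2.1⟩)
    (val := fun p t => T i (Real.cosh t ^ 2) N p) (val2 := fun p t => T j (Real.cosh t ^ 2) N p)
    (value hN i) (value hN j)
  filter_upwards [h] with t ht ht0
  filter_upwards [ht ht0, eventually_ge_atTop 3] with p h1 hp q hpq hlt h2
  exact h1 q ⟨hpq, h2.1.1, h2.2.1, hlt, hp⟩ h2.1.2 h2.2.2

lemma w_sq : Summable (fun p : ℕ => w p * w p) := by
  have hlog : ∀ᶠ p : ℕ in atTop, ‖w p * w p‖ ≤ 1 / (p : ℝ) ^ (3 / 2 : ℝ) := by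
    have := (isLittleO_log_rpow_rpow_atTop 2 (show (0 : ℝ) < 1 / 2 by norm_num)).bound
      (show (0 : ℝ) < 1 by norm_num)
    have h2 := (tendsto_natCast_atTop_atTop (R := ℝ)).eventually this
    filter_upwards [h2, eventually_ge_atTop 1] with p h2 hp
    have hp1 : (1 : ℝ) ≤ p := by exact_mod_cast hp
    rw [Real.norm_of_nonneg (mul_nonneg (w_nonneg _) (w_nonneg _))]
    rw [Real.norm_of_nonneg (Real.rpow_nonneg (Real.log_nonneg hp1) _),
      Real.norm_of_nonneg (Real.rpow_nonneg (by linarith) _), one_mul, Real.rpow_two] at h2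
    unfold w
    have e : (p : ℝ) ^ (3 / 2 : ℝ) * (p : ℝ) ^ (1 / 2 : ℝ) = p * p := by
      rw [← Real.rpow_add (by linarith)]
      norm_num
      rw [sq]
    rw [div_mul_div_comm, div_le_div_iff₀ (by positivity) (by positivity), one_mul, ← e]
    have h3 : (0 : ℝ) ≤ (p : ℝ) ^ (3 / 2 : ℝ) := by positivity
    nlinarith
  exact Summable.of_norm_bounded_eventually_nat (Real.summable_one_div_nat_rpow.2 (by norm_num)) hlog

/-- the same level -/
lemma same_level {N : ℝ} (hN : 0 < N) : ∀ᵐ D : ℝ, 1 < D →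
    {n : ℕ | Hit (P D N) n ∧ Hit (R D N) n}.Finite := by
  classical
  refine ae_of_cosh ?_
  set S' : Set (ℕ × ℕ) := {x | x.1.Prime ∧ x.1 = x.2} with hS'
  have h := pairs_val (c0 := 0) le_rfl (fun p => measurable_yy 2 0 (sg false) (H_meas N false) p)
    (fun p => measurable_yy 2 0 (sg true) (H_meas N true) p) (fam N false) (fam N true) (S := S')
    (fun x hx => ⟨hx.1, hx.2 ▸ hx.1, hx.2.le⟩)
    (by
      intro a0 a1 ha0 _
      set τ := 2 * Real.sinh a0 / (2 * Real.cosh a0) with hτ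
      have hτb := tanh_bd ha0
      rw [← hτ] at hτb
      refine ⟨τ / 2, by linarith, by linarith, ?_⟩
      have e1 := yy1_close (m1 := 2) (m0 := 0) (c0 := 0) (H' := H1 false) two_pos (sg_le false)
        (by norm_num) (show (0 : ℝ) < τ / 4 by linarith) a0 a1 ha0
      have e2 := yy1_close (m1 := 2) (m0 := 0) (c0 := 0) (H' := H1 true) two_pos (sg_le true)
        (by norm_num) (show (0 : ℝ) < τ / 4 by linarith) a0 a1 ha0
      filter_upwards [e1, e2] with p h1 h2 q hpq t ht
      obtain ⟨_, heq⟩ := hpq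
      simp only at heq
      subst heq
      have g1 := abs_le.1 (h1 t ht)
      have g2 := abs_le.1 (h2 t ht)
      have g3 : H1 true t = 0 := by simp [H1]
      have g4 : H1 false t = -(2 * Real.sinh t / (2 * Real.cosh t)) := by simp [H1]
      have ht0 : 0 < t := ha0.trans_le ht.1
      have g5 : τ ≤ 2 * Real.sinh t / (2 * Real.cosh t) := by
        rw [hτ, div_le_div_iff₀ (by have := Real.cosh_pos a0; positivity)
          (by have := Real.cosh_pos t; positivity)]
        have h3 : 0 ≤ Real.sinh (t - a0) := Real.sinh_nonneg_iff.2 (by linarith [ht.1])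
        rw [Real.sinh_sub] at h3
        nlinarith
      rw [g3] at g2
      rw [g4] at g1
      linarith [g1.1, g1.2, g2.1, g2.2])
    (by
      refine summable_pairs (g := fun p => w p * w p) (fun x => ?_) (fun p => ?_) w_sq ?_
      · exact Set.indicator_nonneg (fun x _ => mul_nonneg (w_nonneg _) (w_nonneg _)) x
      · refine (Set.finite_singleton p).subset fun q hq => ?_
        have := Set.mem_of_indicator_ne_zero hq
        exact this.2.symm
      · refine Eventually.of_forall fun p => ?_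
        have hs : ∀ q : ℕ, q ≠ p → S'.indicator (fun x : ℕ × ℕ => w x.1 * w x.2) (p, q) = 0 := by
          intro q hq
          exact Set.indicator_of_notMem (fun h => hq h.2.symm) _
        rw [tsum_eq_single p hs]
        exact Set.indicator_le_self' (fun x _ => mul_nonneg (w_nonneg _) (w_nonneg _)) _)
    (val := fun p t => T false (Real.cosh t ^ 2) N p) (val2 := fun p t => T true (Real.cosh t ^ 2) N p)
    (value hN false) (value hN true)
  filter_upwards [h] with t ht ht0
  obtain ⟨M, hM⟩ := eventually_atTop.1 (ht ht0)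
  refine (Set.finite_Iio M).subset fun n hn => ?_
  by_contra hle
  exact hM n (not_lt.1 hle) n ⟨hn.1.1, rfl⟩ hn.2.2 hn.1.2

/-- close pairs, fixed `ε` -/
lemma close_fixed {N : ℝ} (hN : 0 < N) {ε : ℝ} (hε : 0 < ε) : ∀ᵐ D : ℝ, 1 < D →
    ∀ᶠ p : ℕ in atTop, ∀ q : ℕ, p < q → (q : ℝ) ≤ p + p / Real.log p ^ (1 + ε) →
      ∀ i j : Bool, ¬ (Hit (T i D N) p ∧ Hit (T j D N) q) := by
  have h := ae_all_iff.2 fun i : Bool => ae_all_iff.2 fun j : Bool =>
    core hN i j {x | (x.2 : ℝ) ≤ x.1 + wid ε x.1} (by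
      refine (pair_sum hε).congr fun x => ?_
      classical
      rw [Set.indicator_apply]
      refine if_congr ?_ rfl rfl
      simp only [Set.mem_ofPred_eq]
      tauto)
  filter_upwards [h] with x hx h0
  filter_upwards [hx false false h0, hx false true h0, hx true false h0, hx true true h0]
    with p h1 h2 h3 h4 q hlt hle i j
  cases i <;> cases j
  · exact h1 q hle hlt
  · exact h2 q hle hlt
  · exact h3 q hle hlt
  · exact h4 q hle hlt

lemma wid_anti {ε δ : ℝ} (h : δ ≤ ε) {p : ℕ} (hp : 1 ≤ Real.log p) :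
    (p : ℝ) / Real.log p ^ (1 + ε) ≤ p / Real.log p ^ (1 + δ) := by
  refine div_le_div_of_nonneg_left (Nat.cast_nonneg _) (Real.rpow_pos_of_pos (by linarith) _) ?_
  exact Real.rpow_le_rpow_of_exponent_le hp (by linarith)

/-- the point `(2, 1)` -/
lemma special (k : ℕ) : P 2 1 (2 * k + 1) = (Pool.Agent.X144.Pell.sol k).1 ∧
    R 2 1 (2 * k + 1) = (Pool.Agent.X144.Pell.sol k).2 := by
  obtain ⟨h1, h2⟩ := Pool.Agent.X144.Pell.sol_closed k
  rw [h1, h2]
  unfold P R
  norm_num

lemma W1 {k : ℕ} (hk : (2 * k + 1).Prime) :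
    roughPart (2 * k + 1) ⌊P 2 1 (2 * k + 1)⌋₊ = (Pool.Agent.X144.Pell.sol k).1 :=
  Pool.Agent.X144.Pell.rough1 hk (special k).1

lemma W2 {k : ℕ} (hk : (2 * k + 1).Prime) :
    roughPart (2 * k + 1) ⌊R 2 1 (2 * k + 1)⌋₊ = (Pool.Agent.X144.Pell.sol k).2 :=
  Pool.Agent.X144.Pell.rough2 hk (special k).2

theorem result :
    -- Q2 is the question for `D = 2`, `N = 1`
    ({x : ℕ × ℕ | x.1 ^ 2 + 1 = 2 * x.2 ^ 2 ∧ x.1.Prime ∧ x.2.Prime}.Infinite ↔
      {n : ℕ | Hit (P 2 1) n ∧ Hit (R 2 1) n}.Infinite) ∧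
    -- for every `N` and almost every `D` there are only finitely many common hits
    (∀ N : ℝ, 0 < N → ∀ᵐ D : ℝ, 1 < D → {n : ℕ | Hit (P D N) n ∧ Hit (R D N) n}.Finite) ∧
    -- close pairs
    (∀ N : ℝ, 0 < N → ∀ᵐ D : ℝ, 1 < D → ∀ ε : ℝ, 0 < ε → ∀ᶠ m : ℕ in atTop, ∀ n : ℕ, m < n →
      (n : ℝ) ≤ m + m / Real.log m ^ (1 + ε) →
        ¬ ((Hit (P D N) m ∨ Hit (R D N) m) ∧ (Hit (P D N) n ∨ Hit (R D N) n))) ∧
    -- sets of pairs
    (∀ N : ℝ, 0 < N → ∀ S : Set (ℕ × ℕ),
      Summable (fun x : ℕ × ℕ => {x | x ∈ S ∧ x.1.Prime ∧ x.2.Prime ∧ x.1 < x.2}.indicator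
        (fun x : ℕ × ℕ => Real.log x.1 / x.1 * (Real.log x.2 / x.2)) x) →
      ∀ᵐ D : ℝ, 1 < D → ∀ᶠ m : ℕ in atTop, ∀ n : ℕ, (m, n) ∈ S → m < n →
        ¬ ((Hit (P D N) m ∨ Hit (R D N) m) ∧ (Hit (P D N) n ∨ Hit (R D N) n))) := by
  refine ⟨?_, fun N hN => same_level hN, fun N hN => ?_, fun N hN S hS => ?_⟩
  · have h := Pool.Agent.X144.Pell.inf_iff (φ := fun x => x.1.Prime ∧ x.2.Prime)
      (ψ := fun n => (roughPart n ⌊P 2 1 n⌋₊).Prime ∧ (roughPart n ⌊R 2 1 n⌋₊).Prime)
      (fun k hk => Pool.Agent.X144.Pell.index_prime1 hk.1) (fun k hk => by rw [W1 hk, W2 hk])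
    have e : {n : ℕ | Hit (P 2 1) n ∧ Hit (R 2 1) n} = {n : ℕ | n.Prime ∧
        (roughPart n ⌊P 2 1 n⌋₊).Prime ∧ (roughPart n ⌊R 2 1 n⌋₊).Prime} := by
      ext n
      simp only [Set.mem_ofPred_eq, Hit]
      tauto
    rw [e]
    exact h
  · have h := ae_all_iff.2 fun n : ℕ => close_fixed hN (show (0 : ℝ) < 1 / ((n : ℝ) + 1) by positivity)
    filter_upwards [h] with x h hx ε hε
    obtain ⟨n, hn⟩ := exists_nat_one_div_lt hε
    have hlog : Tendsto (fun p : ℕ => Real.log (p : ℝ)) atTop atTop :=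
      Real.tendsto_log_atTop.comp tendsto_natCast_atTop_atTop
    filter_upwards [h n hx, hlog.eventually_ge_atTop 1] with p hp hl q hlt hle
    have h1 := hp q hlt (hle.trans (by linarith [wid_anti hn.le hl]))
    rintro ⟨h2 | h2, h3 | h3⟩
    · exact h1 true true ⟨h2, h3⟩
    · exact h1 true false ⟨h2, h3⟩
    · exact h1 false true ⟨h2, h3⟩
    · exact h1 false false ⟨h2, h3⟩
  · have h := ae_all_iff.2 fun i : Bool => ae_all_iff.2 fun j : Bool => core hN i j S hS
    filter_upwards [h] with x hx h0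
    filter_upwards [hx false false h0, hx false true h0, hx true false h0, hx true true h0]
      with p h1 h2 h3 h4 q hpq hlt
    rintro ⟨g2 | g2, g3 | g3⟩
    · exact h4 q hpq hlt ⟨g2, g3⟩
    · exact h3 q hpq hlt ⟨g2, g3⟩
    · exact h2 q hpq hlt ⟨g2, g3⟩
    · exact h1 q hpq hlt ⟨g2, g3⟩

end Pool.Agent.Results.MP_927e73_nt.BothPrimeFixedN
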