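import Mathlib
import Pool.Agent.X144.PellFac
import Pool.Agent.X34.M.M2

set_option autoImplicit false

/-!
# Solutions of `p ^ 2 - 2 r ^ 2 = -1` with prime index and without small prime factors

Let `(p_k, r_k)` be the positive solutions of `p ^ 2 - 2 r ^ 2 = -1` in increasing order.  If `p_k`
or `r_k` is prime, then the index `n = 2 k + 1` is prime, and then all the prime factors of `p_k` and
of `r_k` are `≡ ± 1 (mod n)`, hence at least `2 n - 1`.  We prove that for at least `X ^ (9 / 10)`
primes `n` in `(X, 3 X]`, in any class modulo a squarefree number, all the prime factors of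
`p_k r_k` are larger than `c n f(n)`, where `f(n) = log n (log₂ n)² log₄ n / (log₃ n)²` (iterated
natural logarithms) is the size of the largest known gaps between primes.

The proof combines the congruence with the covering sieve for `n z ± 1` of the starting library
(`Pool.Agent.X34.M`).
-/

namespace Pool.Agent.Results.MP_927e73_nt.FactorsOfPellTerms

/-- The positive solutions `(p_k, r_k)` of `p ^ 2 - 2 r ^ 2 = -1`, in increasing order. -/
def sol : ℕ → ℕ × ℕ
  | 0 => (1, 1)
  | k + 1 => (3 * (sol k).1 + 4 * (sol k).2, 2 * (sol k).1 + 3 * (sol k).2)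

/-- The record scale `f(x) = log x (log₂ x)² log₄ x / (log₃ x)²` (iterated natural logarithms). -/
noncomputable def f (x : ℝ) : ℝ :=
  Real.log x * (Real.log (Real.log x)) ^ 2 * Real.log (Real.log (Real.log (Real.log x))) /
    (Real.log (Real.log (Real.log x))) ^ 2

lemma sol_eq (k : ℕ) : sol k = Pool.Agent.X144.Pell.sol k := by
  induction k with
  | zero => rfl
  | succ k ih =>
    show (3 * (sol k).1 + 4 * (sol k).2, 2 * (sol k).1 + 3 * (sol k).2) = _
    rw [ih]
    rfl

/-- The pairs `sol k` are all the solutions; a prime coordinate forces a prime index `2 k + 1`, and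
then all the prime factors of both coordinates are congruent to `± 1` modulo the index.  For every
squarefree `d` there is `c > 0` such that for all large `X` and all `h` prime to `d` at least
`X ^ (9 / 10)` primes `n = 2 k + 1` with `X < n ≤ 3 X`, `n ≡ h (mod d)` have the property that all
the prime factors of both coordinates of `sol k` are larger than `c n f(n)`. -/
theorem result :
    (∀ p r : ℕ, p ^ 2 + 1 = 2 * r ^ 2 ↔ ∃ k : ℕ, sol k = (p, r)) ∧
    (∀ k : ℕ, ((sol k).1.Prime ∨ (sol k).2.Prime) → (2 * k + 1).Prime) ∧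
    (∀ k q : ℕ, (2 * k + 1).Prime → q.Prime → q ∣ (sol k).1 * (sol k).2 →
      2 * k + 1 ∣ q - 1 ∨ 2 * k + 1 ∣ q + 1) ∧
    (∀ d : ℕ, Squarefree d → ∃ c : ℝ, 0 < c ∧ ∃ X₀ : ℝ, ∀ X : ℝ, X₀ ≤ X → ∀ h : ℕ, h.Coprime d →
      X ^ (9 / 10 : ℝ) ≤ ({n : ℕ | n.Prime ∧ X < n ∧ (n : ℝ) ≤ 3 * X ∧ n ≡ h [MOD d] ∧
        ∃ k : ℕ, n = 2 * k + 1 ∧
          ∀ q : ℕ, q.Prime → q ∣ (sol k).1 * (sol k).2 → c * (n * f n) < q}.ncard : ℝ)) := by
  simp only [sol_eq]
  refine ⟨Pool.Agent.X144.Pell.sol_iff, fun k hk => ?_,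
    fun k q hk hq h => Pool.Agent.X144.Pell.cong hk hq h, fun d hd => ?_⟩
  · rcases hk with h | h
    · exact Pool.Agent.X144.Pell.index_prime1 h
    · exact Pool.Agent.X144.Pell.index_prime2 h
  obtain ⟨c, hc, X₀, hX⟩ := Pool.Agent.X34.M.mersenne 1 d hd
  refine ⟨c, hc, max X₀ 2, fun X hXX h hh => ?_⟩
  refine (hX X ((le_max_left _ _).trans hXX) h hh).trans ?_
  have hX2 : 2 ≤ X := (le_max_right _ _).trans hXX
  rw [Nat.cast_le]
  refine Set.ncard_le_ncard ?_ ?_
  · rintro n ⟨hn, h1, h2, h3, -, -, h4⟩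
    have hn2 : n ≠ 2 := by
      rintro rfl
      have : X < 2 := by exact_mod_cast h1
      linarith
    obtain ⟨k, hk⟩ := hn.odd_of_ne_two hn2
    refine ⟨hn, h1, h2, h3, k, hk, fun q hq hqd => ?_⟩
    rw [hk] at hn
    rcases Pool.Agent.X144.Pell.cong hn hq hqd with h5 | h5
    · refine h4 1 1 (by norm_num) (by norm_num) (by norm_num) (by norm_num) q hq ?_ ?_
      · have := hq.one_lt
        intro h6
        have : (q : ℤ) = 1 := by linarith
        omega
      · rw [hk]
        have h6 : ((2 * k + 1 : ℕ) : ℤ) ∣ ((q - 1 : ℕ) : ℤ) := Int.natCast_dvd_natCast.2 h5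
        rw [Nat.cast_sub hq.one_le] at h6
        simpa using h6
    · refine h4 1 (-1) (by norm_num) (by norm_num) (by norm_num) (by norm_num) q hq ?_ ?_
      · intro h6
        have : (0 : ℤ) ≤ q := Int.natCast_nonneg q
        linarith
      · rw [hk]
        have h6 : ((2 * k + 1 : ℕ) : ℤ) ∣ ((q + 1 : ℕ) : ℤ) := Int.natCast_dvd_natCast.2 h5
        push_cast at h6 ⊢
        simpa using h6
  · apply (Set.finite_Iic ⌊3 * X⌋₊).subset
    intro n hn
    exact Set.mem_Iic.2 (Nat.le_floor hn.2.2.1)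

end Pool.Agent.Results.MP_927e73_nt.FactorsOfPellTerms
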