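import Mathlib
import Pool.Agent.X144.Pell
import Pool.Agent.H19P.QA

set_option autoImplicit false

/-!
# Prime coordinates in the orbits of the unit `3 + 2 √2` on real vectors

The positive solutions of `p ^ 2 - 2 r ^ 2 = -1` are the orbit of `(1, 1)` under the map
`(x, y) ↦ (3 x + 4 y, 2 x + 3 y)`, the multiplication of `x + y √2` by `3 + 2 √2`.  For real `β`, `B`
let `P β B n`, `R β B n` be the coordinates of `2 β (1 + √2) ^ n`, up to the multiple
`2 B (1 - √2) ^ n` of the conjugate: `P = β (1 + √2) ^ n + B (1 - √2) ^ n`,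
`R = (β (1 + √2) ^ n - B (1 - √2) ^ n) / √2`.  The points with the indices `n = 2 k + 1` are the
orbit of the real vector `(P β B 1, R β B 1)`, and every real vector is of this form.  At
`β = B = 1 / 2` these are the solutions `(p_k, r_k)`.

For a real sequence `s` and a prime `n` let `W s n` be the `n`-rough part (the product, with
multiplicity, of the prime factors larger than `n`) of `⌊s n⌋`.  At `β = B = 1 / 2` it is `p_k` or
`r_k` itself, `n = 2 k + 1`, and these can be prime only if `n` is, so that Q1 asks whether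
`W (P (1/2) (1/2)) n` is prime for infinitely many primes `n`.

The equation, that is the unit, is fixed.  We prove for every `B` and almost every `β > 0`: the
number of primes `n ≤ x` with `W (P β B) n` prime is
`κ log x + O((log x) ^ (1/2) (log log x) ^ (5/2))` with `κ = e ^ γ / log (1 + √2)`, the same holds for
`W (R β B) n`, and the corresponding statements hold for the primes `n` in an arbitrary set `S`.
-/

namespace Pool.Agent.Results.MP_927e73_nt.PellSetsOfExponents

open Filter Topology MeasureTheory Asymptotics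

/-- The map `(x, y) ↦ (3 x + 4 y, 2 x + 3 y)`: the multiplication of `x + y √2` by `3 + 2 √2`. -/
def step (v : ℝ × ℝ) : ℝ × ℝ := (3 * v.1 + 4 * v.2, 2 * v.1 + 3 * v.2)

/-- The first coordinate. -/
noncomputable def P (β B : ℝ) (n : ℕ) : ℝ :=
  β * (1 + Real.sqrt 2) ^ n + B * (1 - Real.sqrt 2) ^ n

/-- The second coordinate. -/
noncomputable def R (β B : ℝ) (n : ℕ) : ℝ :=
  (β * (1 + Real.sqrt 2) ^ n - B * (1 - Real.sqrt 2) ^ n) / Real.sqrt 2

/-- The product, with multiplicity, of the prime factors of `m` that are larger than `p`. -/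
def roughPart (p m : ℕ) : ℕ := (m.primeFactorsList.filter (fun r => p < r)).prod

/-- The `p`-rough part of the integer part of the term `s p` of a real sequence. -/
noncomputable def W (s : ℕ → ℝ) (p : ℕ) : ℕ := roughPart p ⌊s p⌋₊

open Classical in
/-- The number of primes `p ≤ n` in the set `S` for which `W s p` is prime. -/
noncomputable def M (s : ℕ → ℝ) (S : Set ℕ) (n : ℕ) : ℕ :=
  ((Finset.range (n + 1)).filter (fun p => p.Prime ∧ p ∈ S ∧ (W s p).Prime)).card

open Classical in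
/-- The sum of `log p / p` over the primes `p ≤ n` in the set `S`. -/
noncomputable def V (S : Set ℕ) (n : ℕ) : ℝ :=
  ∑ p ∈ (Finset.range (n + 1)).filter (fun p => p.Prime ∧ p ∈ S), Real.log p / p

/-- The law with constant `κ`, with error term, for all primes and for the primes in `S`. -/
structure Law (s : ℕ → ℝ) (κ : ℝ) (S : Set ℕ) : Prop where
  /-- the number of all primes `p ≤ n` with `W s p` prime -/
  all : (fun n : ℕ => (M s Set.univ n : ℝ) - κ * Real.log n) =O[atTop]
    (fun n : ℕ => Real.sqrt (Real.log n) * (Real.log (Real.log n)) ^ ((5 : ℝ) / 2))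
  /-- the number of primes `p ≤ n` in `S` with `W s p` prime -/
  sets : Tendsto (V S) atTop atTop → (fun n : ℕ => (M s S n : ℝ) - κ * V S n) =O[atTop]
    (fun n : ℕ => Real.sqrt (V S n * Real.log (Real.log n)) *
      (Real.log (V S n * Real.log (Real.log n))) ^ 2)
  /-- there are infinitely many in `S` if and only if the weight of `S` is infinite -/
  dichotomy : {p : ℕ | p.Prime ∧ p ∈ S ∧ (W s p).Prime}.Infinite ↔ Tendsto (V S) atTop atTop

lemma V_eq (S : Set ℕ) : V S = Pool.Agent.TH888.R.VS S := by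
  funext n
  unfold V Pool.Agent.TH888.R.VS Pool.Agent.TH888.R.wt
  rw [← Finset.sum_filter]
  refine Finset.sum_congr ?_ fun _ _ => rfl
  ext q
  simp only [Finset.mem_filter]
  tauto

lemma M_eq (s : ℕ → ℝ) (S : Set ℕ) (n : ℕ) :
    M s S n = Pool.Agent.TH888.R.cS S (fun p => ⌊s p⌋₊) n := by
  unfold M Pool.Agent.TH888.R.cS
  congr

lemma law_of {s : ℕ → ℝ} {κ : ℝ} {S : Set ℕ}
    (h1 : Pool.Agent.TH888.R.Pt (fun p => ⌊s p⌋₊) κ Set.univ)
    (h2 : Pool.Agent.TH888.R.Pt (fun p => ⌊s p⌋₊) κ S) : Law s κ S := by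
  refine ⟨?_, fun hS => ?_, ?_⟩
  · obtain ⟨B, hB, h⟩ := h1.law Pool.Agent.TH888.R.VS_univ_tendsto
    simp only [M_eq]
    exact Pool.Agent.TH888.R.bigO_all hB h
  · rw [V_eq] at hS ⊢
    obtain ⟨B, hB, h⟩ := h2.law hS
    simp only [M_eq]
    exact Pool.Agent.TH888.R.bigO_set hB hS h
  · rw [V_eq]
    constructor
    · intro hi
      by_contra hn
      exact hi (h2.fin hn)
    · exact h2.inf

lemma sq2 : Real.sqrt 2 ^ 2 = 2 := Real.sq_sqrt (by norm_num)

lemma pos2 : 0 < Real.sqrt 2 := Real.sqrt_pos.2 (by norm_num)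

/-- the coordinates run through the orbit -/
lemma orbit (β B : ℝ) (k : ℕ) : (P β B (2 * k + 1), R β B (2 * k + 1)) =
    step^[k] (P β B 1, R β B 1) := by
  induction k with
  | zero => rfl
  | succ k ih =>
    rw [Function.iterate_succ_apply', ← ih]
    have h2 := sq2
    have h3 := pos2.ne'
    have e1 : (1 + Real.sqrt 2) ^ (2 * (k + 1) + 1) =
        (1 + Real.sqrt 2) ^ (2 * k + 1) * (3 + 2 * Real.sqrt 2) := by
      rw [show 2 * (k + 1) + 1 = (2 * k + 1) + 2 by ring, pow_add]
      congr 1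
      linear_combination h2
    have e2 : (1 - Real.sqrt 2) ^ (2 * (k + 1) + 1) =
        (1 - Real.sqrt 2) ^ (2 * k + 1) * (3 - 2 * Real.sqrt 2) := by
      rw [show 2 * (k + 1) + 1 = (2 * k + 1) + 2 by ring, pow_add]
      congr 1
      linear_combination h2
    have e4 : (4 : ℝ) = 2 * Real.sqrt 2 * Real.sqrt 2 := by linear_combination -2 * h2
    unfold P R step
    simp only
    rw [e1, e2]
    refine Prod.ext ?_ ?_
    · simp only
      field_simp
      linear_combination (2 * (β * (1 + Real.sqrt 2) ^ (2 * k + 1)) -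
        2 * (B * (1 - Real.sqrt 2) ^ (2 * k + 1))) * h2
    · simp only
      field_simp
      ring

/-- every real vector is of the form -/
lemma cover (x y : ℝ) : ∃ β B : ℝ, P β B 1 = x ∧ R β B 1 = y ∧
    (0 < x + y * Real.sqrt 2 → 0 < β) := by
  have h2 := sq2
  have h3 := pos2
  refine ⟨(x + y * Real.sqrt 2) * (Real.sqrt 2 - 1) / 2,
    -((x - y * Real.sqrt 2) * (Real.sqrt 2 + 1) / 2), ?_, ?_, fun h => ?_⟩
  · unfold P
    rw [pow_one, pow_one]
    linear_combination x * h2
  · unfold R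
    rw [pow_one, pow_one, div_eq_iff h3.ne']
    linear_combination y * Real.sqrt 2 * h2
  · have h4 : 0 < Real.sqrt 2 - 1 := by
      have : 1 < Real.sqrt 2 := by
        rw [Real.lt_sqrt zero_le_one]; norm_num
      linarith
    positivity

/-- the special point -/
lemma special (k : ℕ) : P (1 / 2) (1 / 2) (2 * k + 1) = (Pool.Agent.X144.Pell.sol k).1 ∧
    R (1 / 2) (1 / 2) (2 * k + 1) = (Pool.Agent.X144.Pell.sol k).2 := by
  obtain ⟨h1, h2⟩ := Pool.Agent.X144.Pell.sol_closed k
  have h3 := pos2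
  rw [h1, h2]
  unfold P R
  constructor
  · ring
  · field_simp

lemma W1 {k : ℕ} (hk : (2 * k + 1).Prime) :
    W (P (1 / 2) (1 / 2)) (2 * k + 1) = (Pool.Agent.X144.Pell.sol k).1 :=
  Pool.Agent.X144.Pell.rough1 hk (special k).1

lemma W2 {k : ℕ} (hk : (2 * k + 1).Prime) :
    W (R (1 / 2) (1 / 2)) (2 * k + 1) = (Pool.Agent.X144.Pell.sol k).2 :=
  Pool.Agent.X144.Pell.rough2 hk (special k).2

lemma one_lt : 1 < 1 + Real.sqrt 2 := by linarith [pos2]

lemma tr : (1 + Real.sqrt 2) + (1 - Real.sqrt 2) = ((2 : ℤ) : ℝ) := by push_cast; ring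

lemma nm : (1 + Real.sqrt 2) * (1 - Real.sqrt 2) = -1 := by linear_combination -sq2

lemma law_P (B : ℝ) (S : Set ℕ) : ∀ᵐ β : ℝ, 0 < β → Law (P β B)
    (Real.exp Real.eulerMascheroniConstant / Real.log (1 + Real.sqrt 2)) S := by
  filter_upwards [Pool.Agent.H19P.pt_unit one_lt tr nm B Set.univ,
    Pool.Agent.H19P.pt_unit one_lt tr nm B S] with β h1 h2 h0
  exact law_of (h1 h0) (h2 h0)

/-- multiplication by a positive constant preserves almost every statement -/
lemma ae_scale {c : ℝ} (hc : 0 < c) {Q : ℝ → Prop} (h : ∀ᵐ x : ℝ, Q x) : ∀ᵐ x : ℝ, Q (x / c) := by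
  have h1 : Measure.QuasiMeasurePreserving (fun x : ℝ => x * c⁻¹) volume volume := by
    refine ⟨by fun_prop, ?_⟩
    rw [Real.map_volume_mul_right (inv_ne_zero hc.ne')]
    exact Measure.smul_absolutelyContinuous
  simpa only [div_eq_mul_inv] using h1.ae h

lemma law_R (B : ℝ) (S : Set ℕ) : ∀ᵐ β : ℝ, 0 < β → Law (R β B)
    (Real.exp Real.eulerMascheroniConstant / Real.log (1 + Real.sqrt 2)) S := by
  filter_upwards [ae_scale pos2 (law_P (-(B / Real.sqrt 2)) S)] with β h h0
  have h1 := h (by have := pos2; positivity)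
  have e : R β B = P (β / Real.sqrt 2) (-(B / Real.sqrt 2)) := by
    funext n
    unfold R P
    ring
  rw [e]
  exact h1

/-- The solutions of `p ^ 2 - 2 r ^ 2 = -1` are the orbit of `(1, 1)`, the point `β = B = 1 / 2`, and
the two questions are questions about this orbit.  For every `B` and almost every `β > 0` the number
of the primes of each of the two kinds obeys the law with a square root error term, for all primes
and for the primes in an arbitrary set. -/
theorem result :
    (∀ p r : ℕ, p ^ 2 + 1 = 2 * r ^ 2 ↔ ∃ k : ℕ, ((p : ℝ), (r : ℝ)) = step^[k] (1, 1)) ∧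
    (∀ (β B : ℝ) (k : ℕ), (P β B (2 * k + 1), R β B (2 * k + 1)) = step^[k] (P β B 1, R β B 1)) ∧
    (P (1 / 2) (1 / 2) 1 = 1 ∧ R (1 / 2) (1 / 2) 1 = 1) ∧
    (∀ x y : ℝ, ∃ β B : ℝ, P β B 1 = x ∧ R β B 1 = y ∧ (0 < x + y * Real.sqrt 2 → 0 < β)) ∧
    ({x : ℕ × ℕ | x.1 ^ 2 + 1 = 2 * x.2 ^ 2 ∧ x.1.Prime}.Infinite ↔
      {n : ℕ | n.Prime ∧ (W (P (1 / 2) (1 / 2)) n).Prime}.Infinite) ∧
    ({x : ℕ × ℕ | x.1 ^ 2 + 1 = 2 * x.2 ^ 2 ∧ x.1.Prime ∧ x.2.Prime}.Infinite ↔
      {n : ℕ | n.Prime ∧ (W (P (1 / 2) (1 / 2)) n).Prime ∧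
        (W (R (1 / 2) (1 / 2)) n).Prime}.Infinite) ∧
    (∀ (B : ℝ) (S : Set ℕ), ∀ᵐ β : ℝ, 0 < β →
      Law (P β B) (Real.exp Real.eulerMascheroniConstant / Real.log (1 + Real.sqrt 2)) S ∧
      Law (R β B) (Real.exp Real.eulerMascheroniConstant / Real.log (1 + Real.sqrt 2)) S) := by
  have hP : P (1 / 2) (1 / 2) 1 = 1 := by unfold P; ring
  have hR : R (1 / 2) (1 / 2) 1 = 1 := by
    have h3 := pos2
    unfold R
    field_simp
    ring
  refine ⟨fun p r => ?_, orbit, ⟨hP, hR⟩, cover, ?_, ?_, fun B S => ?_⟩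
  · rw [Pool.Agent.X144.Pell.sol_iff]
    refine exists_congr fun k => ?_
    have h := orbit (1 / 2) (1 / 2) k
    rw [hP, hR, (special k).1, (special k).2] at h
    rw [← h, Prod.ext_iff, Prod.ext_iff, Nat.cast_inj, Nat.cast_inj]
    exact ⟨fun h => ⟨h.1.symm, h.2.symm⟩, fun h => ⟨h.1.symm, h.2.symm⟩⟩
  · exact Pool.Agent.X144.Pell.inf_iff (φ := fun x => x.1.Prime)
      (ψ := fun n => (W (P (1 / 2) (1 / 2)) n).Prime)
      (fun k hk => Pool.Agent.X144.Pell.index_prime1 hk) (fun k hk => by rw [W1 hk])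
  · exact Pool.Agent.X144.Pell.inf_iff (φ := fun x => x.1.Prime ∧ x.2.Prime)
      (ψ := fun n => (W (P (1 / 2) (1 / 2)) n).Prime ∧ (W (R (1 / 2) (1 / 2)) n).Prime)
      (fun k hk => Pool.Agent.X144.Pell.index_prime1 hk.1) (fun k hk => by rw [W1 hk, W2 hk])
  · filter_upwards [law_P B S, law_R B S] with β h1 h2 h0
    exact ⟨h1 h0, h2 h0⟩

end Pool.Agent.Results.MP_927e73_nt.PellSetsOfExponents
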