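import Mathlib
import Pool.Agent.X144.Pell
import Pool.Agent.X144.Hyp
import Pool.Agent.Y719.Mer.Open

set_option autoImplicit false

/-!
# Prime coordinates of the solutions of `P ^ 2 - D R ^ 2 = -N` for real `D`, `N`

For real `D > 1`, `N > 0` and odd `n` let `P D N n`, `R D N n` be the coordinates of
`√N (√(D - 1) + √D) ^ n`, the solutions of `P ^ 2 - D R ^ 2 = -N` in the orbit of
`√N (√(D - 1), 1)` under the powers of `(√(D - 1) + √D) ^ 2`.  At `(D, N) = (2, 1)` these are the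
positive solutions of `p ^ 2 - 2 r ^ 2 = -1`.  For a real sequence `s` and a prime `n` let `W s n` be
the `n`-rough part (the product, with multiplicity, of the prime factors larger than `n`) of
`⌊s n⌋`.  At `(2, 1)` it is `p_k` or `r_k` itself, `n = 2 k + 1`, and `p_k` or `r_k` can be prime
only if `n` is.  So Q1 asks whether there are infinitely many primes `n` with `W (P 2 1) n` prime,
and Q2 asks whether there are infinitely many with `W (P 2 1) n` and `W (R 2 1) n` both prime.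

We prove: for every `N > 0` and almost every `D > 1` the number of primes `n ≤ x` with
`W (P D N) n` prime is `κ log x + O((log x) ^ (1/2) (log log x) ^ (5/2))` with
`κ = e ^ γ / log (√(D - 1) + √D)`, the same holds for `W (R D N) n`, and the corresponding
statements hold for the primes `n` in an arbitrary set `S`.  For almost every pair `(D, N)` there are
only finitely many primes `n` with both `W (P D N) n` and `W (R D N) n` prime.

Proof of the last statement: in the coordinates `w = log √D`, `s = log √N` the measure of the points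
of a box at which both numbers with the index `n` have prime rough parts is `O((log n / n) ^ 2)`; we
integrate over `log P` and, for fixed `P`, over `log R`.
-/

namespace Pool.Agent.Results.MP_927e73_nt.RealPellLaw

open Filter Topology MeasureTheory Asymptotics

/-- The first coordinate of `√N (√(D - 1) + √D) ^ n`, `n` odd. -/
noncomputable def P (D N : ℝ) (n : ℕ) : ℝ :=
  Real.sqrt N * (((Real.sqrt (D - 1) + Real.sqrt D) ^ n + (Real.sqrt (D - 1) - Real.sqrt D) ^ n) / 2)

/-- The second coordinate of `√N (√(D - 1) + √D) ^ n`, `n` odd. -/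
noncomputable def R (D N : ℝ) (n : ℕ) : ℝ :=
  Real.sqrt N * (((Real.sqrt (D - 1) + Real.sqrt D) ^ n - (Real.sqrt (D - 1) - Real.sqrt D) ^ n) /
    (2 * Real.sqrt D))

/-- The product, with multiplicity, of the prime factors of `m` that are larger than `p`. -/
def roughPart (p m : ℕ) : ℕ := (m.primeFactorsList.filter (fun r => p < r)).prod

/-- The `p`-rough part of the integer part of the term `s p` of a real sequence. -/
noncomputable def W (s : ℕ → ℝ) (p : ℕ) : ℕ := roughPart p ⌊s p⌋₊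

open Classical in
/-- The number of primes `p ≤ n` in the set `S` for which `W s p` is prime. -/
noncomputable def M (s : ℕ → ℝ) (S : Set ℕ) (n : ℕ) : ℕ :=
  ((Finset.range (n + 1)).filter (fun p => p.Prime ∧ p ∈ S ∧ (W s p).Prime)).card

open Classical in
/-- The sum of `log p / p` over the primes `p ≤ n` in the set `S`. -/
noncomputable def V (S : Set ℕ) (n : ℕ) : ℝ :=
  ∑ p ∈ (Finset.range (n + 1)).filter (fun p => p.Prime ∧ p ∈ S), Real.log p / p

/-- The law with constant `κ`, with error term, for all primes and for the primes in `S`. -/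
structure Law (s : ℕ → ℝ) (κ : ℝ) (S : Set ℕ) : Prop where
  /-- the number of all primes `p ≤ n` with `W s p` prime -/
  all : (fun n : ℕ => (M s Set.univ n : ℝ) - κ * Real.log n) =O[atTop]
    (fun n : ℕ => Real.sqrt (Real.log n) * (Real.log (Real.log n)) ^ ((5 : ℝ) / 2))
  /-- the number of primes `p ≤ n` in `S` with `W s p` prime -/
  sets : Tendsto (V S) atTop atTop → (fun n : ℕ => (M s S n : ℝ) - κ * V S n) =O[atTop]
    (fun n : ℕ => Real.sqrt (V S n * Real.log (Real.log n)) *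
      (Real.log (V S n * Real.log (Real.log n))) ^ 2)
  /-- there are infinitely many in `S` if and only if the weight of `S` is infinite -/
  dichotomy : {p : ℕ | p.Prime ∧ p ∈ S ∧ (W s p).Prime}.Infinite ↔ Tendsto (V S) atTop atTop

lemma V_eq (S : Set ℕ) : V S = Pool.Agent.TH888.R.VS S := by
  funext n
  unfold V Pool.Agent.TH888.R.VS Pool.Agent.TH888.R.wt
  rw [← Finset.sum_filter]
  refine Finset.sum_congr ?_ fun _ _ => rfl
  ext q
  simp only [Finset.mem_filter]
  tauto

lemma M_eq (s : ℕ → ℝ) (S : Set ℕ) (n : ℕ) :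
    M s S n = Pool.Agent.TH888.R.cS S (fun p => ⌊s p⌋₊) n := by
  unfold M Pool.Agent.TH888.R.cS
  congr

lemma law_of {s : ℕ → ℝ} {κ : ℝ} {S : Set ℕ}
    (h1 : Pool.Agent.TH888.R.Pt (fun p => ⌊s p⌋₊) κ Set.univ)
    (h2 : Pool.Agent.TH888.R.Pt (fun p => ⌊s p⌋₊) κ S) : Law s κ S := by
  refine ⟨?_, fun hS => ?_, ?_⟩
  · obtain ⟨B, hB, h⟩ := h1.law Pool.Agent.TH888.R.VS_univ_tendsto
    simp only [M_eq]
    exact Pool.Agent.TH888.R.bigO_all hB h
  · rw [V_eq] at hS ⊢
    obtain ⟨B, hB, h⟩ := h2.law hS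
    simp only [M_eq]
    exact Pool.Agent.TH888.R.bigO_set hB hS h
  · rw [V_eq]
    constructor
    · intro hi
      by_contra hn
      exact hi (h2.fin hn)
    · exact h2.inf

/-- the solution of the real Pell equation -/
lemma norm_eq {D N : ℝ} (hD : 1 < D) (hN : 0 < N) {n : ℕ} (hn : Odd n) :
    P D N n ^ 2 - D * R D N n ^ 2 = -N := by
  have h0 : 0 < D := by linarith
  have h1 := Real.sq_sqrt h0.le
  have h2 := Real.sq_sqrt (show 0 ≤ D - 1 by linarith)
  have h3 := Real.sq_sqrt hN.le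
  have h4 : 0 < Real.sqrt D := Real.sqrt_pos.2 h0
  have h5 : (Real.sqrt (D - 1) + Real.sqrt D) ^ n * (Real.sqrt (D - 1) - Real.sqrt D) ^ n = -1 := by
    rw [← mul_pow, show (Real.sqrt (D - 1) + Real.sqrt D) * (Real.sqrt (D - 1) - Real.sqrt D) = -1 by
      nlinarith, hn.neg_one_pow]
  have h6 : R D N n * Real.sqrt D = Real.sqrt N *
      (((Real.sqrt (D - 1) + Real.sqrt D) ^ n - (Real.sqrt (D - 1) - Real.sqrt D) ^ n) / 2) := by
    unfold R
    field_simp
  have h7 : D * R D N n ^ 2 = (R D N n * Real.sqrt D) ^ 2 := by rw [mul_pow, h1]; ring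
  rw [h7, h6]
  unfold P
  rw [mul_pow, mul_pow, h3]
  linear_combination N * h5

/-- the point `(2, 1)` -/
lemma special (k : ℕ) : P 2 1 (2 * k + 1) = (Pool.Agent.X144.Pell.sol k).1 ∧
    R 2 1 (2 * k + 1) = (Pool.Agent.X144.Pell.sol k).2 := by
  obtain ⟨h1, h2⟩ := Pool.Agent.X144.Pell.sol_closed k
  rw [h1, h2]
  unfold P R
  norm_num

lemma W1 {k : ℕ} (hk : (2 * k + 1).Prime) :
    W (P 2 1) (2 * k + 1) = (Pool.Agent.X144.Pell.sol k).1 :=
  Pool.Agent.X144.Pell.rough1 hk (special k).1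

lemma W2 {k : ℕ} (hk : (2 * k + 1).Prime) :
    W (R 2 1) (2 * k + 1) = (Pool.Agent.X144.Pell.sol k).2 :=
  Pool.Agent.X144.Pell.rough2 hk (special k).2

/-- the law for the general solution -/
lemma law_gen {A B : ℝ → ℝ} (hA : ContDiffOn ℝ 2 A (Set.Ioi 1)) (hB : ContDiffOn ℝ 2 B (Set.Ioi 1))
    (hpos : ∀ x ∈ Set.Ioi (1 : ℝ), 0 < A x) (S : Set ℕ) :
    ∀ᵐ D : ℝ, 1 < D → Law (fun n =>
      A (Real.sqrt (D - 1) + Real.sqrt D) * (Real.sqrt (D - 1) + Real.sqrt D) ^ n -
      B (Real.sqrt (D - 1) + Real.sqrt D) * (Real.sqrt (D - 1) - Real.sqrt D) ^ n)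
      (Real.exp Real.eulerMascheroniConstant / Real.log (Real.sqrt (D - 1) + Real.sqrt D)) S := by
  have hc : ContDiffOn ℝ 2 (fun x : ℝ => -x⁻¹) (Set.Ioi 1) := by
    refine (contDiffOn_id.inv fun x hx => ?_).neg
    have : (1 : ℝ) < x := hx
    simp only [id_eq]
    linarith
  have hcx : ∀ x ∈ Set.Ioi (1 : ℝ), |-x⁻¹| < x := by
    intro x hx
    have h1 : (1 : ℝ) < x := hx
    rw [abs_neg, abs_of_pos (by positivity)]
    exact (inv_lt_one_of_one_lt₀ h1).trans h1
  have hU1 : ∀ x ∈ Set.Ioi (1 : ℝ), 1 < x := fun x hx => hx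
  have h1 := Pool.Agent.Y719.Mer.pt_open isOpen_Ioi hU1 hA hB hc hpos hcx Set.univ
  have h2 := Pool.Agent.Y719.Mer.pt_open isOpen_Ioi hU1 hA hB hc hpos hcx S
  have h : ∀ᵐ x : ℝ, x ∈ Set.Ioi (1 : ℝ) → Law (fun p => A x * x ^ p - B x * (-x⁻¹) ^ p)
      (Real.exp Real.eulerMascheroniConstant / Real.log x) S := by
    filter_upwards [h1, h2] with x h1 h2 hx
    exact law_of (h1 hx) (h2 hx)
  have hd : DifferentiableOn ℝ (fun x : ℝ => ((x + x⁻¹) / 2) ^ 2) (Set.Ioi 1) := by
    intro x hx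
    have hx0 : x ≠ 0 := by
      have : (1 : ℝ) < x := hx
      linarith
    exact (((differentiableAt_id.add (differentiableAt_inv hx0)).div_const 2).pow 2).differentiableWithinAt
  filter_upwards [Pool.Agent.Y719.Mer.ae_image hd h] with D hD h0
  have h3 : 0 < D := by linarith
  have e1 := Real.sq_sqrt h3.le
  have e2 := Real.sq_sqrt (show 0 ≤ D - 1 by linarith)
  have e3 : 1 < Real.sqrt D := by
    rw [Real.lt_sqrt zero_le_one]; linarith
  have e4 : 0 ≤ Real.sqrt (D - 1) := Real.sqrt_nonneg _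
  have e5 : (Real.sqrt (D - 1) + Real.sqrt D)⁻¹ = Real.sqrt D - Real.sqrt (D - 1) :=
    inv_eq_of_mul_eq_one_right (by nlinarith)
  have e6 := hD (Real.sqrt (D - 1) + Real.sqrt D)
    (show (1 : ℝ) < Real.sqrt (D - 1) + Real.sqrt D by linarith) (by
      rw [e5]
      linear_combination e1)
  rw [e5, show -(Real.sqrt D - Real.sqrt (D - 1)) = Real.sqrt (D - 1) - Real.sqrt D by ring] at e6
  exact e6

lemma sqrt_eq {D : ℝ} (hD : 1 < D) : Real.sqrt (D - 1) + Real.sqrt D +
    (Real.sqrt (D - 1) + Real.sqrt D)⁻¹ = 2 * Real.sqrt D := by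
  have h3 : 0 < D := by linarith
  have e1 := Real.sq_sqrt h3.le
  have e2 := Real.sq_sqrt (show 0 ≤ D - 1 by linarith)
  have e5 : (Real.sqrt (D - 1) + Real.sqrt D)⁻¹ = Real.sqrt D - Real.sqrt (D - 1) :=
    inv_eq_of_mul_eq_one_right (by nlinarith)
  rw [e5]; ring

lemma law_P {N : ℝ} (hN : 0 < N) (S : Set ℕ) : ∀ᵐ D : ℝ, 1 < D → Law (P D N)
    (Real.exp Real.eulerMascheroniConstant / Real.log (Real.sqrt (D - 1) + Real.sqrt D)) S := by
  have hs : 0 < Real.sqrt N := Real.sqrt_pos.2 hN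
  filter_upwards [law_gen (A := fun _ => Real.sqrt N / 2) (B := fun _ => -(Real.sqrt N / 2))
    contDiffOn_const contDiffOn_const (fun _ _ => by positivity) S] with D hD h0
  have e : P D N = fun n => Real.sqrt N / 2 * (Real.sqrt (D - 1) + Real.sqrt D) ^ n -
      -(Real.sqrt N / 2) * (Real.sqrt (D - 1) - Real.sqrt D) ^ n := by
    funext n
    unfold P
    ring
  rw [e]
  exact hD h0

lemma law_R {N : ℝ} (hN : 0 < N) (S : Set ℕ) : ∀ᵐ D : ℝ, 1 < D → Law (R D N)
    (Real.exp Real.eulerMascheroniConstant / Real.log (Real.sqrt (D - 1) + Real.sqrt D)) S := by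
  have hs : 0 < Real.sqrt N := Real.sqrt_pos.2 hN
  have hc : ContDiffOn ℝ 2 (fun x : ℝ => Real.sqrt N / (x + x⁻¹)) (Set.Ioi 1) := by
    have hinv : ContDiffOn ℝ 2 (fun x : ℝ => x⁻¹) (Set.Ioi 1) := by
      refine contDiffOn_id.inv fun x hx => ?_
      have : (1 : ℝ) < x := hx
      simp only [id_eq]
      linarith
    refine contDiffOn_const.div (contDiffOn_id.add hinv) fun x hx => ?_
    have h1 : (1 : ℝ) < x := hx
    have h2 : 0 < x⁻¹ := by positivity
    show x + x⁻¹ ≠ 0
    linarith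
  have hp : ∀ x ∈ Set.Ioi (1 : ℝ), 0 < Real.sqrt N / (x + x⁻¹) := by
    intro x hx
    have h1 : (1 : ℝ) < x := hx
    positivity
  filter_upwards [law_gen hc hc hp S] with D hD h0
  have e : R D N = fun n => Real.sqrt N / (Real.sqrt (D - 1) + Real.sqrt D +
      (Real.sqrt (D - 1) + Real.sqrt D)⁻¹) * (Real.sqrt (D - 1) + Real.sqrt D) ^ n -
      Real.sqrt N / (Real.sqrt (D - 1) + Real.sqrt D + (Real.sqrt (D - 1) + Real.sqrt D)⁻¹) *
        (Real.sqrt (D - 1) - Real.sqrt D) ^ n := by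
    funext n
    rw [sqrt_eq h0]
    unfold R
    ring
  rw [e]
  exact hD h0

/-- The solutions of `p ^ 2 - 2 r ^ 2 = -1` are the point `(D, N) = (2, 1)` of the family, and the
two questions are questions about this point.  For every `N` and almost every `D` the number of the
primes of each of the two kinds obeys the law with a square root error term, and for almost every
pair `(D, N)` the two kinds have only finitely many common indices. -/
theorem result :
    (∀ p r : ℕ, p ^ 2 + 1 = 2 * r ^ 2 ↔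
      ∃ k : ℕ, (p : ℝ) = P 2 1 (2 * k + 1) ∧ (r : ℝ) = R 2 1 (2 * k + 1)) ∧
    ({x : ℕ × ℕ | x.1 ^ 2 + 1 = 2 * x.2 ^ 2 ∧ x.1.Prime}.Infinite ↔
      {n : ℕ | n.Prime ∧ (W (P 2 1) n).Prime}.Infinite) ∧
    ({x : ℕ × ℕ | x.1 ^ 2 + 1 = 2 * x.2 ^ 2 ∧ x.1.Prime ∧ x.2.Prime}.Infinite ↔
      {n : ℕ | n.Prime ∧ (W (P 2 1) n).Prime ∧ (W (R 2 1) n).Prime}.Infinite) ∧
    (∀ D N : ℝ, 1 < D → 0 < N → ∀ n : ℕ, Odd n → P D N n ^ 2 - D * R D N n ^ 2 = -N) ∧
    (∀ N : ℝ, 0 < N → ∀ S : Set ℕ, ∀ᵐ D : ℝ, 1 < D →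
      Law (P D N) (Real.exp Real.eulerMascheroniConstant /
        Real.log (Real.sqrt (D - 1) + Real.sqrt D)) S ∧
      Law (R D N) (Real.exp Real.eulerMascheroniConstant /
        Real.log (Real.sqrt (D - 1) + Real.sqrt D)) S) ∧
    (∀ᵐ y : ℝ × ℝ, 1 < y.1 → 0 < y.2 →
      {n : ℕ | n.Prime ∧ (W (P y.1 y.2) n).Prime ∧ (W (R y.1 y.2) n).Prime}.Finite) := by
  refine ⟨fun p r => ?_, ?_, ?_, fun D N hD hN n hn => norm_eq hD hN hn, fun N hN S => ?_,
    Pool.Agent.X144.Pair.ae_both⟩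
  · rw [Pool.Agent.X144.Pell.sol_iff]
    refine exists_congr fun k => ?_
    rw [(special k).1, (special k).2, Nat.cast_inj, Nat.cast_inj, Prod.ext_iff]
    exact ⟨fun h => ⟨h.1.symm, h.2.symm⟩, fun h => ⟨h.1.symm, h.2.symm⟩⟩
  · exact Pool.Agent.X144.Pell.inf_iff (φ := fun x => x.1.Prime) (ψ := fun n => (W (P 2 1) n).Prime)
      (fun k hk => Pool.Agent.X144.Pell.index_prime1 hk) (fun k hk => by rw [W1 hk])
  · exact Pool.Agent.X144.Pell.inf_iff (φ := fun x => x.1.Prime ∧ x.2.Prime)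
      (ψ := fun n => (W (P 2 1) n).Prime ∧ (W (R 2 1) n).Prime)
      (fun k hk => Pool.Agent.X144.Pell.index_prime1 hk.1) (fun k hk => by rw [W1 hk, W2 hk])
  · filter_upwards [law_P hN S, law_R hN S] with D h1 h2 h0
    exact ⟨h1 h0, h2 h0⟩

end Pool.Agent.Results.MP_927e73_nt.RealPellLaw
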